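import Mathlib
import Pool.Agent.Q117.KInd.Main

set_option autoImplicit false

namespace Pool.Agent.Results.MP_10f18b_co.StrictBound

/-- The average degree of a graph on `n` labelled vertices. -/
noncomputable def avgDeg {n : ℕ} (G : SimpleGraph (Fin n)) : ℝ :=
  (∑ v, ((G.neighborSet v).ncard : ℝ)) / n

/-- `S` is `k`-independent: the induced subgraph has maximum degree at most `k`. -/
def KIndep {n : ℕ} (G : SimpleGraph (Fin n)) (k : ℕ) (S : Finset (Fin n)) : Prop :=
  ∀ v ∈ S, {w : Fin n | w ∈ S ∧ G.Adj v w}.ncard ≤ k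

/-- The `k`-independence number. -/
noncomputable def alpha {n : ℕ} (k : ℕ) (G : SimpleGraph (Fin n)) : ℕ :=
  sSup {m : ℕ | ∃ S : Finset (Fin n), KIndep G k S ∧ S.card = m}

/-- `f(k,d) = inf { α_k(G) / n(G) : G a graph with average degree at most d }`. -/
noncomputable def f (k d : ℕ) : ℝ :=
  sInf {r : ℝ | ∃ (n : ℕ) (G : SimpleGraph (Fin n)), 0 < n ∧ avgDeg G ≤ d ∧
    r = (alpha k G : ℝ) / n}

lemma alpha_bound (k n : ℕ) (hk : 2 ≤ k) (G : SimpleGraph (Fin n)) :
    (2 * (k : ℝ) ^ 2 + 5 * k + 4) * ((n : ℝ) - alpha k G) ≤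
      (k + 1) * (∑ v, ((G.neighborSet v).ncard : ℝ)) + n := by
  classical
  obtain ⟨D, _, hdeg, hcard⟩ := Q117.KInd.main (G := G) k hk n Finset.univ (by simp)
  have hS : KIndep G k (Finset.univ \ D) := by
    intro v hv
    have h1 := hdeg v hv
    have h2 : {w : Fin n | w ∈ Finset.univ \ D ∧ G.Adj v w} =
        (((Finset.univ \ D).filter (fun w => G.Adj v w) : Finset (Fin n)) : Set (Fin n)) := by
      ext w
      simp
    rw [h2, Set.ncard_coe_finset]
    exact h1
  have hα : (Finset.univ \ D).card ≤ alpha k G := by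
    apply le_csSup
    · refine ⟨n, ?_⟩
      rintro m ⟨T, _, rfl⟩
      have := Finset.card_le_univ T
      rwa [Fintype.card_fin] at this
    · exact ⟨_, hS, rfl⟩
  have hD : (Finset.univ \ D).card + D.card = n := by
    have := Finset.card_sdiff_add_card_eq_card (Finset.subset_univ D)
    rwa [Finset.card_univ, Fintype.card_fin] at this
  have hE : (Q117.KInd.E G k Finset.univ).card ≤ ∑ v, (G.neighborSet v).ncard := by
    have h1 : (Q117.KInd.E G k Finset.univ).card ≤
        (((Finset.univ : Finset (Fin n)) ×ˢ Finset.univ).filter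
          (fun p => G.Adj p.1 p.2)).card := by
      apply Finset.card_le_card
      intro p hp
      rw [Q117.KInd.mem_E] at hp
      rw [Finset.mem_filter, Finset.mem_product]
      exact ⟨hp.1, hp.2.1⟩
    refine h1.trans (le_of_eq ?_)
    rw [Finset.card_filter, Finset.sum_product]
    apply Finset.sum_congr rfl
    intro v _
    rw [← Finset.card_filter]
    have h2 : G.neighborSet v =
        ((Finset.univ.filter (fun w => G.Adj v w) : Finset (Fin n)) : Set (Fin n)) := by
      ext w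
      simp
    rw [h2, Set.ncard_coe_finset]
  rw [Finset.card_univ, Fintype.card_fin] at hcard
  have h3 : (n : ℝ) - alpha k G ≤ D.card := by
    have : (n : ℝ) ≤ (alpha k G : ℝ) + D.card := by
      have : n ≤ alpha k G + D.card := by omega
      exact_mod_cast this
    linarith
  have h4 : (2 * (k : ℝ) ^ 2 + 5 * k + 4) * (D.card : ℝ) ≤
      (k + 1) * (∑ v, ((G.neighborSet v).ncard : ℝ)) + n := by
    have : (2 * k ^ 2 + 5 * k + 4) * D.card ≤ (k + 1) * (∑ v, (G.neighborSet v).ncard) + n :=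
      hcard.trans (Nat.add_le_add_right (Nat.mul_le_mul_left _ hE) _)
    exact_mod_cast this
  have h5 : 0 ≤ 2 * (k : ℝ) ^ 2 + 5 * k + 4 := by positivity
  exact (mul_le_mul_of_nonneg_left h3 h5).trans h4

/-- For all integers `k ≥ d ≥ 2` one has
`f(k,d) ≥ 1 - ((k+1)d+1)/(2k²+5k+4) > (2k+2-d)/(2k+2)`; so the bound is sharp for no pair. -/
theorem result : ∀ k d : ℕ, 2 ≤ d → d ≤ k →
    1 - (((k : ℝ) + 1) * d + 1) / (2 * (k : ℝ) ^ 2 + 5 * k + 4) ≤ f k d ∧
    (2 * (k : ℝ) + 2 - d) / (2 * k + 2) < f k d := by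
  intro k d hd hdk
  have hB : (0 : ℝ) < 2 * (k : ℝ) ^ 2 + 5 * k + 4 := by positivity
  have h1 : 1 - (((k : ℝ) + 1) * d + 1) / (2 * (k : ℝ) ^ 2 + 5 * k + 4) ≤ f k d := by
    apply le_csInf
    · refine ⟨_, 1, ⊥, one_pos, ?_, rfl⟩
      unfold avgDeg
      simp
    · rintro r ⟨n, G, hn, havg, rfl⟩
      have hn' : (0 : ℝ) < n := by exact_mod_cast hn
      have h2 := alpha_bound k n (by omega) G
      unfold avgDeg at havg
      rw [div_le_iff₀ hn'] at havg
      rw [le_div_iff₀ hn', sub_mul, one_mul, div_mul_eq_mul_div, sub_le_comm, le_div_iff₀ hB]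
      have h3 : ((k : ℝ) + 1) * (∑ v, ((G.neighborSet v).ncard : ℝ)) ≤ (k + 1) * (d * n) :=
        mul_le_mul_of_nonneg_left havg (by positivity)
      linarith
  refine ⟨h1, lt_of_lt_of_le ?_ h1⟩
  have hd' : (2 : ℝ) ≤ d := by exact_mod_cast hd
  have hk0 : (0 : ℝ) ≤ k := by positivity
  have hk1 : (0 : ℝ) < 2 * (k : ℝ) + 2 := by positivity
  have h4 : (2 * (k : ℝ) + 2 - d) / (2 * k + 2) = 1 - d / (2 * k + 2) := by
    field_simp
  rw [h4]
  have h5 : (((k : ℝ) + 1) * d + 1) / (2 * (k : ℝ) ^ 2 + 5 * k + 4) < d / (2 * k + 2) := by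
    rw [div_lt_div_iff₀ hB hk1]
    nlinarith
  linarith

end Pool.Agent.Results.MP_10f18b_co.StrictBound
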